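import Mathlib
import Pool.Agent.N626.Vc

/-!
# Curves given by iterated primitives, and images of affine spaces

Let `X` be a complex projective variety, and let `X°` be the complement of the hypersurface `Q = 0`
in `X` (`Q = 1` is allowed; then `X° = X`). Let `B` be a ring of holomorphic functions on a domain,
closed under differentiation, of transcendence degree at most `b`, and let `f` be a Zariski-dense
holomorphic curve in `X` whose homogeneous coordinates are obtained from `B` by iterated primitives
(for instance polylogarithms, where `B` consists of rational functions and `b = 1`). We prove that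
`X°` is covered by a family of images of affine spaces, of codimension at most `b`. So if
`b < dim X`, or, for arbitrary `b`, if `f` is not algebraic over `B`, then `X°` is covered by the
images of a family of nonconstant morphisms from the affine line to `X°`.
-/

set_option autoImplicit false

namespace Pool.Agent.Results.MP_410da7_ag.IteratedPrimitives

open MvPolynomial
open Pool.Agent.TH143 (DiffRing AlgOver)
open Pool.Agent.N626

variable {N : ℕ}

/-- The variety with the ideal `p` has dimension at least `d`: there are `d + 1` homogeneous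
coordinates such that no nonzero form in them vanishes on the variety. -/
def DimGe (p : Ideal (MvPolynomial (Fin (N + 1)) ℂ)) (d : ℕ) : Prop :=
  ∃ a : Fin (d + 1) → Fin (N + 1), ∀ (D : ℕ) (G : MvPolynomial (Fin (d + 1)) ℂ),
    G.IsHomogeneous D → rename a G ∈ p → G = 0

/-- `B` is a ring of holomorphic functions on the domain `Ω`, closed under differentiation, and `f` is
a Zariski-dense holomorphic curve on `Ω` in the variety with the ideal `p`, not contained in `Q = 0`,
whose homogeneous coordinates are obtained by iterated primitives from `B`; the logarithmic derivative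
of `Q (f)` is a quotient of elements of `B` (this condition is empty if `Q (f)` is constant: for
instance if `Q = 1`, or if the complement of `Q = 0` is affine, `Q = X 0`, and
`f = (1 : f_1 : … : f_N)`). -/
structure PrimitiveCurve (Ω : Set ℂ) (B : Subalgebra ℂ (ℂ → ℂ))
    (p : Ideal (MvPolynomial (Fin (N + 1)) ℂ)) (Q : MvPolynomial (Fin (N + 1)) ℂ)
    (f : ℂ → Fin (N + 1) → ℂ) : Prop where
  isOpen : IsOpen Ω
  conn : IsPreconnected Ω
  ring : DiffRing Ω B
  prim : ∀ j, IterPrim Ω B fun z => f z j
  on : ∀ G ∈ p, ∀ z ∈ Ω, eval (f z) G = 0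
  dense : ∀ G : MvPolynomial (Fin (N + 1)) ℂ, (∃ D, G.IsHomogeneous D) →
    (∀ z ∈ Ω, eval (f z) G = 0) → G ∈ p
  off : ∃ z ∈ Ω, eval (f z) Q ≠ 0
  bd : ∃ b ∈ B, ∃ c ∈ B, (∃ z ∈ Ω, b z ≠ 0) ∧
    ∀ z ∈ Ω, b z * deriv (fun w => eval (f w) Q) z = c z * eval (f z) Q

/-- Some quotient of the homogeneous coordinates of `f` is not algebraic over `B`. -/
def TransOver (Ω : Set ℂ) (B : Subalgebra ℂ (ℂ → ℂ)) (f : ℂ → Fin (N + 1) → ℂ) : Prop :=
  ∃ i l, ¬ AlgOver Ω B (fun z => f z i) (fun z => f z l)

/-- The complement `X°` of `Q = 0` in the variety `X` with the ideal `p` is covered by a family of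
images of the affine space of dimension `e`, and these images have the dimension `e`: there is a
morphism over a field extension `M` of `ℂ`, given by polynomials `W_j`, from the affine space of
dimension `e` over `M` to `X°`, which is dominant (only the forms in `p` vanish on it), and no nonzero
form over `M` in some `e + 1` of the coordinates vanishes on its image. (If `Q` is a constant, then
the `W_j` may have common zeros.) -/
def AffineFamily (p : Ideal (MvPolynomial (Fin (N + 1)) ℂ)) (Q : MvPolynomial (Fin (N + 1)) ℂ)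
    (e : ℕ) : Prop :=
  ∃ (M : Type) (_ : Field M) (_ : Algebra ℂ M) (W : Fin (N + 1) → MvPolynomial (Fin e) M)
    (a : Fin (e + 1) → Fin (N + 1)),
    (∀ G : MvPolynomial (Fin (N + 1)) ℂ, (∃ D, G.IsHomogeneous D) → (aeval W G = 0 ↔ G ∈ p)) ∧
    (∃ c : M, c ≠ 0 ∧ aeval W Q = C c) ∧
    ∀ (D : ℕ) (G : MvPolynomial (Fin (e + 1)) M), G.IsHomogeneous D →
      aeval (fun j => W (a j)) G = 0 → G = 0

/-- The complement `X°` of `Q = 0` in the variety `X` with the ideal `p` is `𝔸¹`-uniruled: there is a
nonconstant morphism over a field extension `M` of `ℂ`, given by polynomials `P_j` in one variable,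
from the affine line over `M` to `X°`, which is dominant (only the forms in `p` vanish on it). -/
def AffineUniruled (p : Ideal (MvPolynomial (Fin (N + 1)) ℂ)) (Q : MvPolynomial (Fin (N + 1)) ℂ) :
    Prop :=
  ∃ (M : Type) (_ : Field M) (_ : Algebra ℂ M) (P : Fin (N + 1) → Polynomial M),
    (∀ G : MvPolynomial (Fin (N + 1)) ℂ, (∃ D, G.IsHomogeneous D) → (aeval P G = 0 ↔ G ∈ p)) ∧
    (∃ c : M, c ≠ 0 ∧ aeval P Q = Polynomial.C c) ∧
    ∃ j k, (P j).eval 0 ≠ 0 ∧ (P j).eval 0 * (P k).eval 1 ≠ (P j).eval 1 * (P k).eval 0

/-- Let `X` be the projective variety with the ideal `p`, and let `X°` be the complement of `Q = 0` in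
`X`. Let `f` be a Zariski-dense holomorphic curve in `X`, given by iterated primitives over a
differential ring `B` of holomorphic functions, such that the logarithmic derivative of `Q (f)` is a
quotient of elements of `B`.

(1) Let `d ≤ dim X`, and let `B` be of transcendence degree at most `b`. Then for some `e ≥ d - b` the
variety `X°` is covered by a family of images of the affine space of dimension `e`, and these images
have the dimension `e`. If `b < d`, then `X°` is `𝔸¹`-uniruled.

(2) If `f` is not algebraic over `B`, then `X°` is `𝔸¹`-uniruled. -/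
theorem result (p : Ideal (MvPolynomial (Fin (N + 1)) ℂ)) (Q : MvPolynomial (Fin (N + 1)) ℂ)
    {Ω : Set ℂ} {B : Subalgebra ℂ (ℂ → ℂ)} {f : ℂ → Fin (N + 1) → ℂ}
    (hf : PrimitiveCurve Ω B p Q f) :
    (∀ d b : ℕ, DimGe p d → TrdegLe Ω B b →
      (∃ e, d ≤ e + b ∧ AffineFamily p Q e) ∧ (b < d → AffineUniruled p Q)) ∧
    (TransOver Ω B f → AffineUniruled p Q) := by
  obtain ⟨u, hu, c, hc, hu0, hbd⟩ := hf.bd
  refine ⟨fun d b hd htr => ?_, ?_⟩
  · obtain ⟨a, ha⟩ := hd
    obtain ⟨e, κ, M, i1, i2, W, hde, e1, e2, e3, e4⟩ := aff_family hf.isOpen hf.conn hf.ring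
      htr f hf.prim hf.on hf.dense ha hf.off hu hc hu0 hbd
    refine ⟨⟨e, hde, M, i1, i2, W, κ, e1, e3, e4⟩, fun hlt => ?_⟩
    obtain ⟨P, h1, h2, h3⟩ := line_field (by omega) κ e1 e2 e3 e4
    exact ⟨M, i1, i2, P, h1, h2, h3⟩
  · rintro ⟨i, l, hil⟩
    obtain ⟨M', j1, j2, P, h1, h2, h3⟩ := prim_family hf.isOpen hf.conn hf.ring f hf.prim
      hf.off hu hc hu0 hbd (i := i) (l := l) hil
    exact ⟨M', j1, j2, P, fun G hG => (h1 G hG).trans ⟨hf.dense G hG, fun hp => hf.on G hp⟩, h2, h3⟩

end Pool.Agent.Results.MP_410da7_ag.IteratedPrimitives
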