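import Pool.Agent.N145.PL.LG

/-!
# Logarithmic Kodaira dimension and `A¹`-uniruledness: images of products of open curves

Let `C 1, ..., C n` be smooth projective curves over `ℂ` and `B i ⊂ C i` finite sets (they may be
empty), `U i = C i ∖ B i`. Let `γ i` be the logarithmic gonality of `U i` (or a smaller number): every
nonconstant rational function on `C i` which vanishes at all points of `B i` has degree at least
`γ i`. If `B i` is empty, this is the gonality of `C i`; for the projective line without `m ≥ 1` points
it is `m`.

Let `V = U 1 × ... × U n` and let `V ⇢ W` be a dominant rational map of finite degree to a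
variety `W` which is proper in the sense that a prime divisor over `V` (on any compactification of any
birational model) has a centre on `V` if and only if its image has a centre on `W`; for example any
finite morphism onto a normal variety `W`. The map is not related to the curves, and need not be the
quotient by a group. Let `W_s` be the image of `V` in `W × C 1 × ... × C s`, and let `d s i` be the
degree over `W_s` of the image of `V` in `W_s × C i`; this is at most the number
`d 0 i ≤ deg(V ⇢ W)` of different points of `C i` below a general fibre of `V ⇢ W`.

Suppose that for some `s` (for example `s = 0`) `d (i - 1) i < γ i` for all `i ≤ s` and that for all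
`i ≠ j`, `i, j > s`,

`d s i < γ i`, or `d s j < γ j`, or `deg(V ⇢ W_s) ≤ γ i + γ j - 3`.

In particular this holds if `deg(V ⇢ W) ≤ γ i + γ j - 3` for all `i ≠ j`, and it holds if
`d (i - 1) i < γ i` for `i < n`; here there is no condition on the curve `U n`. The theorem: the
following are equivalent:

* the logarithmic geometric genus of `W` is zero;
* the logarithmic Kodaira dimension of `W` is `-∞`;
* the log canonical divisor of a smooth compactification of a resolution of `W` is not
  pseudo-effective;
* `W` is `A¹`-uniruled.

Proof. Let `ω i` be differentials on `C i` with at most simple poles at `B i`, regular elsewhere.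
The traces on `W` of the products of their pullbacks are logarithmic canonical forms. Suppose that
all of them vanish. This is a linear relation between the points of the general fibre of `V ⇢ W`
which is multilinear in the values of the `ω i`. By Riemann-Roch less than `γ i` points of `U i`
impose independent conditions on the `ω i`, so one can fix the coordinates one after the other, and
obtains that for some `i` all differentials `ω i` have trace zero on the image in
`W × ∏ j ≠ i, C j` of the fibres of `V → ∏ j ≠ i, U j`. By base change all logarithmic differentials
of the geometric generic fibre have trace zero. So the image curve is rational, and has at most one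
point below the boundary: otherwise the pullback of a differential of the third kind with poles at
two of these points would be a logarithmic differential with nonzero trace. Hence `W` is covered by
images of the affine line. The compact case is `MP_e06174_ag.ProductsOfCurves` of this team.

The parts on the extension of the constants, on curves without logarithmic differentials and on
`A¹`-uniruledness are due to helper342, helper75 and helper78.
-/

set_option autoImplicit false
set_option linter.overlappingInstances false
set_option maxHeartbeats 4000000
set_option synthInstance.maxHeartbeats 400000

open FF Module Pool.Agent Pool.Agent.W602.GT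
open Pool.Agent.W619.PL (IsA1Uniruled)
open Pool.Agent.R882.LT (LogGenusZero)

namespace Pool.Agent.Results.MP_410da7_ag.OpenProductImages

/-- The number `γ` is at most the logarithmic gonality of the open curve with the function field `F`
and the set `B` of points at infinity: all nonconstant rational functions on the projective curve
which vanish at all points of `B` have degree at least `γ`. -/
def LeLogGonality (γ : ℕ) (F : Type) [Field F] [Algebra ℂ F] (B : Set (Place ℂ F)) : Prop :=
  ∀ y : F, Transcendental ℂ y → (∀ P ∈ B, 0 < P.ord y) →
    γ ≤ finrank (IntermediateField.adjoin ℂ {y}) F

variable {K : Type} [Field K] [Algebra ℂ K] {n : ℕ}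

/-- The place `Q` of the function field `K` of the product `V` of the curves lies over a point in
`B i` for some `i`: it has no centre on the product `V°` of the open curves. -/
def Boundary {F : Fin n → IntermediateField ℂ K} (B : ∀ i, Set (Place ℂ (F i)))
    (Q : Place ℂ K) : Prop :=
  ∃ i, ∃ p ∈ B i, ∃ e : ℕ, 0 < e ∧ ∀ f : F i, Q.ord (f : K) = e * p.ord f

/-- The set `BW` of places of the function field `L` of `W` is the boundary of the image of `V°`: for
all places `Q` of `K` over a place `P` of `L`, `P` is in `BW` if and only if `Q` has no centre
on `V°`. -/
def IsImageBoundary {F : Fin n → IntermediateField ℂ K} (B : ∀ i, Set (Place ℂ (F i)))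
    (L : Type) [Field L] [Algebra ℂ L] [Algebra L K] (BW : Place ℂ L → Prop) : Prop :=
  ∀ (P : Place ℂ L) (Q : Place ℂ K) (e : ℕ), 0 < e →
    (∀ f : L, Q.ord (algebraMap L K f) = e * P.ord f) → (BW P ↔ Boundary B Q)

/-- The function field of the image `W_s` of `V` in the product of `W` and the first `s` curves. Here
`K` and `L` are the function fields of `V` and `W`, and `F i` is the one of the `i`-th curve. -/
noncomputable def Img (F : Fin n → IntermediateField ℂ K) (L : Type) [Field L] [Algebra L K]
    (s : ℕ) : IntermediateField L K :=
  IntermediateField.adjoin L {z | ∃ l : Fin n, l.val < s ∧ z ∈ F l}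

/-- The degree over `W_s` of the image of `V` in the product of `W_s` and the `i`-th curve. -/
noncomputable def deg (F : Fin n → IntermediateField ℂ K) (L : Type) [Field L] [Algebra L K]
    (s : ℕ) (i : Fin n) : ℕ :=
  finrank (Img F L s) (IntermediateField.adjoin (Img F L s) (F i : Set K))

/-- **Images of products of open curves.** Let `K` be the function field of a product `V` of
`n + 1` curves, i.e. `K` is the compositum of the function fields `F i` of the curves and has
transcendence degree `n + 1`, let `B i` be a finite set of points of the `i`-th curve, let `γ i` be at
most the logarithmic gonality of the complement of `B i`, and let `L ⊆ K` be the function field of a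
variety `W` such that the extension is finite. Let `W°` be an open variety with function field `L` and
boundary `BW` (the places of `L` without centre on `W°`) which is the image of the product `V°` of the
open curves under a proper map. Suppose that for all `i < s` (the curves are numbered from `0` to
`n`) the degree over `W_i` of the image of `V` in the product of `W_i` and the `i`-th curve is less
than `γ i`. Suppose that for any two other curves with the numbers `i`, `j` the degree over `W_s` of
the image in the product of `W_s` and one of these curves is less than the number `γ i` or `γ j` of
this curve, or the degree of `V` over `W_s` is at most `γ i + γ j - 3`. Then the following are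
equivalent: the logarithmic geometric genus of `W°` is zero; its logarithmic Kodaira dimension is
`-∞`; its log canonical divisor is not pseudo-effective; `W°` is `A¹`-uniruled. -/
theorem result [Algebra.EssFiniteType ℂ K] (hK : Algebra.trdeg ℂ K = (n + 1 : ℕ))
    (F : Fin (n + 1) → IntermediateField ℂ K) [∀ i, IsFF ℂ (F i)] (hF : ⨆ i, F i = ⊤)
    (B : ∀ i, Set (Place ℂ (F i))) (hB : ∀ i, (B i).Finite)
    {γ : Fin (n + 1) → ℕ} (hγ : ∀ i, LeLogGonality (γ i) (F i) (B i)) (L : Type) [Field L]
    [Algebra ℂ L] [Algebra L K] [IsScalarTower ℂ L K] [FiniteDimensional L K]
    (BW : Place ℂ L → Prop) (hBW : IsImageBoundary B L BW) (s : ℕ)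
    (hs : ∀ i : Fin (n + 1), i.val < s → deg F L i i < γ i)
    (hpair : ∀ i j : Fin (n + 1), s ≤ i.val → s ≤ j.val → i ≠ j →
      deg F L s i < γ i ∨ deg F L s j < γ j ∨ finrank (Img F L s) K + 3 ≤ γ i + γ j) :
    [LogGenusZero L (n + 1) BW, ¬ KodGe ℂ L (n + 1) BW 0, ¬ Psef ℂ L (n + 1) BW,
      IsA1Uniruled ℂ L (n + 1) BW].TFAE := by
  classical
  have hImg : ∀ s, Img F L s = N145.PC.MF F L (N145.PC.Js (n + 1) s) := by
    intro s
    unfold Img N145.PC.MF N145.PC.MJ
    congr 1
    ext z
    simp only [Set.mem_ofPred_eq, Set.mem_iUnion, N145.PC.mem_Js, Set.mem_range, exists_prop]
    constructor
    · rintro ⟨l, hl, hz⟩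
      exact ⟨l, hl, ⟨z, hz⟩, rfl⟩
    · rintro ⟨l, hl, z, rfl⟩
      exact ⟨l, hl, z.2⟩
  have hdeg : ∀ s i, deg F L s i = finrank (N145.PC.MF F L (N145.PC.Js (n + 1) s))
      (IntermediateField.adjoin (N145.PC.MF F L (N145.PC.Js (n + 1) s)) (F i : Set K)) := by
    intro s i
    unfold deg
    rw [hImg]
  refine N145.PL.genus_zero hF hK hB (fun P Q e h => ?_) hγ (s := s)
    (fun l hl => by rw [← hdeg]; exact hs l hl) (fun i j hi hj hij => ?_)
  · rw [hBW P Q e h.1 h.2]
    rfl
  · rw [← hdeg, ← hdeg, ← hImg]
    exact hpair i j hi hj hij

end Pool.Agent.Results.MP_410da7_ag.OpenProductImages
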