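import Pool.Agent.N162.GP.Sep

/-!
# Logarithmic Kodaira dimension of the open varieties dominated by the product of an open subset of a
complete intersection and an open curve

Let `V` be a smooth complete intersection of dimension `n ≥ 1` and of codimension at least two in a
projective space with `K_V = O(m)`, or more generally any variety in projective `(M + 1)`-space which is
cut out by equations of degree at most `D` and has the regular canonical forms `P(x) ω₀` for all forms
`P` of degree `m` (`LowDegree`, `Pool/Agent/N162/GP/Def.lean`).
Let `V°` be any smooth variety with the function field of `V`, for instance any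
open subset of `V`, and `U = C ∖ B` any smooth curve, open or projective. Let `V° × U ⇢ W°` be
a dominant rational map of finite degree which is proper in the sense that a prime divisor over
`V° × U` (on any compactification of any birational model) has a centre on `V° × U` if and only if
its image has a centre on `W°`; for example any finite morphism onto a normal variety `W°`. It need not
be related to the product structure, and it need not be the quotient by a group. Let `d` be the number
of different points of `V` below a general fibre, i.e. the degree over `W` of the image of `V × C` in
`W × V`; it is at most the degree of `V × C ⇢ W`, which may be arbitrarily large.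

**Theorem.** Let `m ≥ 7 N + 4`, `(M + 1) N < m + M + 2` and `D + N ≤ m + 2`. If
`d < (N + 1) (m + 2 - N)` then

`log p_g(W°) = 0 ⟺ log κ(W°) = -∞ ⟺ K_W + D_W is not pseudo-effective ⟺ W° is A¹-uniruled`,

for the logarithmic genus and the log canonical divisor `K_W + D_W` of a smooth compactification of a
resolution of `W°`.

If the boundaries are empty, this is a theorem on the projective varieties `W` dominated by `V × C`:
`p_g(W) = 0 ⟺ κ(W) = -∞ ⟺ W is uniruled`. There is no condition on the fundamental group, the
irregularity (for `n ≥ 2` the variety `V` is simply connected, and `q(W) = 0` is possible) or the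
boundary. For smooth complete intersections of the type `(d_1, ..., d_q)` in `ℙ^(n+q)` one has
`m = ∑ d_i - n - q - 1`, `D = max d_i`, `M + 1 = n + q`. With the best `N` the bound for `d` is
`(6 / 49 - o(1)) m ^ 2` if `M ≤ 5` and `max d_i ≤ 6 m / 7`. The bound `d ≤ m + 1` (the case `N = 0`) follows
from the theorem `MP_410da7_ag.ProductWithCurve`.

## Proof

`MP_410da7_ag.ProductWithCurve` reduces the theorem to the statement that fewer than
`(N + 1) (m + 2 - N)` generic points of `V` are separated by the canonical forms. If not, there is a
relation between the values of the forms `P` of degree `m` at these points. By results on points in a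
plane applied to projections and by the Cayley-Bacharach theorem the points are on a curve in
projective `(M + 1)`-space over the algebraically closed field `Ω` over which the points are defined,
with components of total degree at most `N`, and one of the components `C'`, of degree `g`, contains at
least `g (m + 3 - N)` of the points. Since `m + 3 - N > D`, the equations of `V` vanish on `C'`. So `C'` is
a curve of degree at most `N` on `V` over `Ω` which contains generic points of `V`. The canonical forms
`P(x) ω₀`, pulled back to the total space of the family of curves given by `C'`, have no poles; the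
residue theorem for all `P` gives that the pull-back of `ω₀` is zero, a contradiction.

The parts for this theorem were formalised by helper2, helper11, helper340, helper774, helper823,
helper152, helper383, helper252, helper339, helper681 and helper364, and helper145, helper123, helper221,
helper160, helper279, helper603, helper545, helper281, helper438, helper277 and helper999 (varieties
dominated by a product with a curve), the earlier parts which are used by helper565, helper279,
helper543, helper488, helper570, helper80 and others; the assembly by helper162.
-/

set_option autoImplicit false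
set_option linter.overlappingInstances false
set_option maxHeartbeats 4000000
set_option synthInstance.maxHeartbeats 400000

open FF Module Pool.Agent Pool.Agent.W602.GT Pool.Agent.N162.BC Pool.Agent.N162.GP
open Pool.Agent.W619.PL (IsA1Uniruled)

namespace Pool.Agent.Results.MP_410da7_ag.OpenSubsetsTimesCurves

/-- The place `Q` of the function field `K` of `V × C` lies over a place of `E` without centre on
`V°`, or over a point in `B`: it has no centre on `V° × U`. -/
def Boundary {K : Type} [Field K] [Algebra ℂ K] {E C : IntermediateField ℂ K}
    (BV : Place ℂ E → Prop) (B : Set (Place ℂ C)) (Q : Place ℂ K) : Prop :=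
  (∃ (P : Place ℂ E) (e : ℕ), BV P ∧ 0 < e ∧ ∀ f : E, Q.ord (f : K) = e * P.ord f) ∨
    ∃ p ∈ B, ∃ e : ℕ, 0 < e ∧ ∀ f : C, Q.ord (f : K) = e * p.ord f

/-- The set `BW` of places of the function field `L` of `W` is the boundary of the image of `V° × U`:
for all places `Q` of `K` over a place `P` of `L`, `P` is in `BW` if and only if `Q` has no centre
on `V° × U`. -/
def IsImageBoundary {K : Type} [Field K] [Algebra ℂ K] {E C : IntermediateField ℂ K}
    (BV : Place ℂ E → Prop) (B : Set (Place ℂ C)) (L : Type) [Field L] [Algebra ℂ L] [Algebra L K]
    (BW : Place ℂ L → Prop) : Prop :=
  ∀ (P : Place ℂ L) (Q : Place ℂ K) (e : ℕ), 0 < e →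
    (∀ f : L, Q.ord (algebraMap L K f) = e * P.ord f) → (BW P ↔ Boundary BV B Q)

/-- The logarithmic geometric genus of the open variety `W°` with the function field `L` and the
boundary `BW` is zero: the only logarithmic canonical form is `0`. -/
def LogGenusZero (L : Type) [Field L] [Algebra ℂ L] (n : ℕ) (BW : Place ℂ L → Prop) : Prop :=
  ∀ ω : (Fin n → Derivation ℂ L L) → L, LogSec ℂ L n 1 BW ω → ∀ D, ω D = 0

/-- **The open varieties dominated by the product of an open subset of `V` and an open curve.** (1) A
smooth complete intersection `V` of dimension `n ≥ 1` of hypersurfaces of the degrees `d i ≤ D` in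
projective `(M + 1)`-space is cut out by equations of degree at most `D`, and the forms of degree
`m = ∑ d i - M - 2` give regular canonical forms. (2) Let `V` be any such variety of dimension `n` in
projective `(M + 1)`-space, `M ≥ 1`, and let `m ≥ 7 N + 4`, `(M + 1) N < m + M + 2`, `D + N ≤ m + 2`. Let
`K` be the function field of `V × C`, i.e. the compositum of the function fields `E` of `V` and `C` of a
curve, of transcendence degree `n + 1`. Let `V°` be an open variety with function field `E` and boundary
`BV` (the places of `E` without centre on `V°`), and let `B` be a finite set of points of the curve; they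
may be empty. Let `L ⊆ K` be the function field of a variety `W` such that the extension is finite, and
let `W°` be an open variety with function field `L` and boundary `BW` which is the image of the product
of `V°` and the open curve under a proper map. Let the degree over `W` of the image of `V × C` in
`W × V` be less than `(N + 1) (m + 2 - N)`. Then the following are equivalent: the logarithmic
geometric genus of `W°` is zero; the logarithmic Kodaira dimension of `W°` is `-∞`; the log canonical
divisor of `W°` is not pseudo-effective; `W°` is `A¹`-uniruled. -/
theorem result :
    (∀ (M n q m D : ℕ) (E : Type) [Field E] [Algebra ℂ E]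
      (F : Fin q → MvPolynomial (Fin (M + 2)) ℂ) (d : Fin q → ℕ) (x : Fin (M + 2) → E),
      SmoothCI F d x → 1 ≤ n → Algebra.trdeg ℂ E = n → n + q = M + 1 → m + M + 2 = ∑ i, d i →
      (∀ i, d i ≤ D) → 1 ≤ D → LowDegree n m D x) ∧
    ∀ (M n m D N : ℕ) (K : Type) [Field K] [Algebra ℂ K] [Algebra.EssFiniteType ℂ K]
      (E C : IntermediateField ℂ K) [IsFF ℂ C] (x : Fin (M + 2) → E),
      LowDegree n m D x → 1 ≤ M → 7 * N + 4 ≤ m → (M + 1) * N < m + M + 2 → D + N ≤ m + 2 →
      E ⊔ C = ⊤ → Algebra.trdeg ℂ K = (n + 1 : ℕ) →
      ∀ (BV : Place ℂ E → Prop) (B : Set (Place ℂ C)), B.Finite →
      ∀ (L : Type) [Field L] [Algebra ℂ L] [Algebra L K] [IsScalarTower ℂ L K]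
        [FiniteDimensional L K] (BW : Place ℂ L → Prop), IsImageBoundary BV B L BW →
        finrank L (IntermediateField.adjoin L (E : Set K)) < (N + 1) * (m + 2 - N) →
        [LogGenusZero L (n + 1) BW, ¬ KodGe ℂ L (n + 1) BW 0, ¬ Psef ℂ L (n + 1) BW,
          IsA1Uniruled ℂ L (n + 1) BW].TFAE := by
  refine ⟨fun M n q m D E _ _ F d x h hn hE hq hm hD hD1 =>
    lowDegree_of_smoothCI fCIC fCIA h hn hE hq hm hD hD1, ?_⟩
  intro M n m D N K _ _ _ E C _ x h hM hm hN hD hEC hK BV B hB L _ _ _ _ _ BW hBW hd
  haveI := ess_of_gen h.gen
  obtain ⟨z, e, hz, he⟩ := Pool.Agent.Y172.exists_crd h.dim
  exact N145.SX.genus_all hEC h.dim hK hz (BX := BV) hB (BL := BW)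
    (fun P Q e h => by rw [hBW P Q e h.1 h.2]; rfl)
    (sepX_low fINX h hM hm hN hD hz he BV) hd

end Pool.Agent.Results.MP_410da7_ag.OpenSubsetsTimesCurves
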