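import Pool.Agent.N145.SX.All

/-!
# Logarithmic Kodaira dimension and `A¹`-uniruledness: images of products of a variety and a curve

Let `X°` be a smooth variety over `ℂ` of dimension `m` and `U = C ∖ B` a smooth curve of any genus,
open or projective. Let `V° = X° × U ⇢ W°` be a dominant rational map of finite degree which is proper
in the sense that a prime divisor over `V°` (on any compactification of any birational model) has a
centre on `V°` if and only if its image has a centre on `W°`; for example any finite morphism onto a
normal variety `W°`. It need not be related to the product structure, and it need not be the quotient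
by a group. Let `d` be the number of different points of `X°` below a general fibre of `V° ⇢ W°`, i.e.
the degree over `W` of the image of `X × C` in `W × X`; it is at most the degree of `V° ⇢ W°`, which
may be arbitrarily large.

Suppose that the logarithmic canonical forms of `X°` separate `d` general points: for some nonempty
open subset `U'` of `X°` any `d` different points of `U'` impose independent conditions on the
sections of `K + D` on a smooth compactification of `X°`. For example:

* `X°` is the complement of a normal crossing divisor of degree `e` in a smooth hypersurface of degree
  `c` in projective space with `c + e ≥ m + 1 + d`; for instance the complement of a normal crossing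
  hypersurface of degree at least `m + d` in the projective space of dimension `m`;
* `X°` is a product of curves of logarithmic gonality greater than `d`.

Then `p_g(W°) = 0 ⟺ κ(W°) = -∞ ⟺ K_W + D_W is not pseudo-effective ⟺ W° is A¹-uniruled`

for the logarithmic genus, the logarithmic Kodaira dimension and the log canonical divisor of a smooth
compactification of a resolution of `W°`.

There is no condition on the semiabelian Albanese map: in the first example `X°` has no logarithmic
1-forms if the boundary is irreducible and `m > 1`, and `q(W°) = 0` is possible. The number `d` is
optimal: a bielliptic surface `W = (X × C) / G` with a group `G` of order two, where `X / G` is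
rational and `C / G` elliptic, has `d = 2`, the canonical forms of the elliptic curve `X` separate one
point, `p_g(W) = 0` and `κ(W) = 0`. The team's theorem `OpenProductImages` is about products of
curves, where also pairs of curves of small gonality are possible.

Proof. Let `f` be a logarithmic canonical form of `X°` and `φ` a differential on `C` with at most
simple poles on `B`. The trace on `W°` of the product of their pullbacks is a logarithmic canonical
form, so it is zero if the logarithmic genus is zero. This is a relation between the values of `f` at
the at most `d` points of `X` below a generic point `P` of `W`, with coordinates in the algebraic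
closure of the function field of `W`. As these points are separated, the coefficients vanish: all `φ`
have trace zero on the points of the fibre over `P` with a fixed first coordinate `x`, i.e. on the
image `R_x` of `{x} × U` in `W × X`. By base change to the algebraic closure of the function field of
`X` all logarithmic differentials of the geometric generic fibre have trace zero. So `R_x` is rational
and has at most one point below the boundary: otherwise the pullback of a differential of the third
kind with poles at two of these points would be a logarithmic differential with nonzero trace. Hence
`W°` is covered by images of the affine line.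

The parts of the Lean proof on pull-backs, products and the geometric generic fibre are due to
helpers 123, 221, 279, 603, 342, 75 and 78.
-/

set_option autoImplicit false
set_option linter.overlappingInstances false
set_option maxHeartbeats 4000000
set_option synthInstance.maxHeartbeats 400000

open FF Module Pool.Agent Pool.Agent.W602.GT
open Pool.Agent.W619.PL (IsA1Uniruled)

namespace Pool.Agent.Results.MP_410da7_ag.ProductWithCurve

/-- **The logarithmic canonical forms separate `r` general points.** `E` is the function field of a
variety `X°` of dimension `m`, `BX` is the set of places of `E` without centre on `X°`, and `D` is a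
rational frame of the tangent bundle. The embeddings `σ : E → Ω` are the generic points of `X` with
coordinates in the field `Ω`. At most `r` different such points impose independent conditions on the
logarithmic canonical forms `ω` (`LogSec` with exponent one): if `∑ c σ * σ (ω D) = 0` for all `ω`
then all the coefficients `c σ` are zero. -/
def SeparatesPoints (E : Type) [Field E] [Algebra ℂ E] (m : ℕ) (BX : Place ℂ E → Prop) (r : ℕ) :
    Prop :=
  ∀ D : Fin m → Derivation ℂ E E, LinearIndependent E D →
    ∀ (Ω : Type) [Field Ω] [Algebra ℂ Ω] [IsAlgClosed Ω] (A : Finset (E →ₐ[ℂ] Ω)), A.card ≤ r →
    ∀ c : (E →ₐ[ℂ] Ω) → Ω,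
    (∀ ω : (Fin m → Derivation ℂ E E) → E, LogSec ℂ E m 1 BX ω →
      ∑ σ ∈ A, c σ * σ (ω D) = 0) → ∀ σ ∈ A, c σ = 0

variable {K : Type} [Field K] [Algebra ℂ K]

/-- The place `Q` of the function field `K` of `X × C` lies over a place of `E` without centre on
`X°`, or over a point in `B`: it has no centre on `X° × U`. -/
def Boundary {E C : IntermediateField ℂ K} (BX : Place ℂ E → Prop) (B : Set (Place ℂ C))
    (Q : Place ℂ K) : Prop :=
  (∃ (P : Place ℂ E) (e : ℕ), BX P ∧ 0 < e ∧ ∀ f : E, Q.ord (f : K) = e * P.ord f) ∨
    ∃ p ∈ B, ∃ e : ℕ, 0 < e ∧ ∀ f : C, Q.ord (f : K) = e * p.ord f

/-- The set `BW` of places of the function field `L` of `W` is the boundary of the image of `X° × U`: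
for all places `Q` of `K` over a place `P` of `L`, `P` is in `BW` if and only if `Q` has no centre
on `X° × U`. -/
def IsImageBoundary {E C : IntermediateField ℂ K} (BX : Place ℂ E → Prop) (B : Set (Place ℂ C))
    (L : Type) [Field L] [Algebra ℂ L] [Algebra L K] (BW : Place ℂ L → Prop) : Prop :=
  ∀ (P : Place ℂ L) (Q : Place ℂ K) (e : ℕ), 0 < e →
    (∀ f : L, Q.ord (algebraMap L K f) = e * P.ord f) → (BW P ↔ Boundary BX B Q)

/-- The logarithmic geometric genus of the open variety `W°` with the function field `L` and the
boundary `BW` is zero: the only logarithmic canonical form is `0`. -/
def LogGenusZero (L : Type) [Field L] [Algebra ℂ L] (n : ℕ) (BW : Place ℂ L → Prop) : Prop :=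
  ∀ ω : (Fin n → Derivation ℂ L L) → L, LogSec ℂ L n 1 BW ω → ∀ D, ω D = 0

/-- **Varieties of geometric genus zero dominated by the product of a variety and a curve.** Let `K`
be the function field of `X × C`, i.e. the compositum of the function fields `E` of the variety `X` of
dimension `m` and `C` of the curve, of transcendence degree `m + 1`. Let `X°` be an open variety with
function field `E` and boundary `BX` (the places of `E` without centre on `X°`), and let `B` be a
finite set of points of the curve; they may be empty. Let `L ⊆ K` be the function field of a variety
`W` such that the extension is finite, and let `W°` be an open variety with function field `L` and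
boundary `BW` which is the image of the product of `X°` and the open curve under a proper map. Let `d`
be the degree over `W` of the image of `X × C` in `W × X`. If the logarithmic canonical forms of `X°`
separate `d` general points, then the following are equivalent: the logarithmic geometric genus of
`W°` is zero; the logarithmic Kodaira dimension of `W°` is `-∞`; the log canonical divisor of `W°` is
not pseudo-effective; `W°` is `A¹`-uniruled. -/
theorem result [Algebra.EssFiniteType ℂ K] (m : ℕ) (E C : IntermediateField ℂ K)
    [Algebra.EssFiniteType ℂ E] [IsFF ℂ C] (hEC : E ⊔ C = ⊤) (hE : Algebra.trdeg ℂ E = m)
    (hK : Algebra.trdeg ℂ K = (m + 1 : ℕ)) (BX : Place ℂ E → Prop) (B : Set (Place ℂ C))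
    (hB : B.Finite) (L : Type) [Field L] [Algebra ℂ L] [Algebra L K] [IsScalarTower ℂ L K]
    [FiniteDimensional L K] (BW : Place ℂ L → Prop) (hBW : IsImageBoundary BX B L BW)
    (hX : SeparatesPoints E m BX (finrank L (IntermediateField.adjoin L (E : Set K)))) :
    [LogGenusZero L (m + 1) BW, ¬ KodGe ℂ L (m + 1) BW 0, ¬ Psef ℂ L (m + 1) BW,
      IsA1Uniruled ℂ L (m + 1) BW].TFAE := by
  obtain ⟨x, D, hx, hD⟩ := Pool.Agent.Y172.exists_crd hE
  refine N145.SX.genus_all hEC hE hK hx (BX := BX) hB (BL := BW) (fun P Q e h => ?_)
    (N145.SX.sepX_of hx hD fun Ω _ _ _ A hA c hc => hX D (N145.SX.dual_indep hD) Ω A hA c hc)
    (Nat.lt_succ_self _)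
  rw [hBW P Q e h.1 h.2]
  rfl

end Pool.Agent.Results.MP_410da7_ag.ProductWithCurve
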